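import Pool.Agent.Helper48.QD.Full

/-!
# The product of sines `sf N m` in terms of the quantum dilogarithm
-/

namespace Pool.Agent.Helper48.QD

open MeasureTheory Set Filter Topology
open Pool.Agent.Helper9.TB (sb sf sf_zero sf_succ sf_pos sb_pos ll)

lemma half_VS {N m : ℕ} (hm : m < N) : ((((m : ℝ) + 1 / 2) / N : ℝ) : ℂ) ∈ VS := by
  have hN : (0 : ℝ) < N := by exact_mod_cast (by omega : 0 < N)
  have h1 : (m : ℝ) + 1 ≤ N := by exact_mod_cast hm
  apply real_VS
  · positivity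
  · rw [div_lt_one hN]; linarith only [h1]

lemma sf_LD_aux {N m : ℕ} (hm : m < N) : ((sf N m : ℝ) : ℂ) =
    Complex.exp (LD N ((((m : ℝ) + 1 / 2) / N : ℝ) : ℂ) - LD N (((1 / 2 / N : ℝ)) : ℂ)) := by
  have hN : (0 : ℝ) < N := by exact_mod_cast (by omega : 0 < N)
  have hNc : (N : ℂ) ≠ 0 := by exact_mod_cast hN.ne'
  induction m with
  | zero => simp [sf_zero]
  | succ m ih =>
    have ih' := ih (by omega)
    have h1 := half_VS (N := N) (m := m) (by omega)
    have h2 := half_VS hm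
    have h3 : (((m + 1 : ℕ) / N : ℝ) : ℂ) ∈ VS := by
      apply real_VS
      · positivity
      · rw [div_lt_one hN]; exact_mod_cast hm
    have e1 : ((((m + 1 : ℕ) : ℝ) + 1 / 2) / N : ℝ) = ((m + 1 : ℕ) / N : ℝ) + 1 / (2 * N) := by
      field_simp
    have e2 : (((m : ℝ) + 1 / 2) / N : ℝ) = ((m + 1 : ℕ) / N : ℝ) - 1 / (2 * N) := by
      push_cast; field_simp; ring
    have e1' : (((((m + 1 : ℕ) : ℝ) + 1 / 2) / N : ℝ) : ℂ) =
        (((m + 1 : ℕ) / N : ℝ) : ℂ) + 1 / (2 * (N : ℝ)) := by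
      rw [e1]; push_cast; ring
    have e2' : ((((m : ℝ) + 1 / 2) / N : ℝ) : ℂ) =
        (((m + 1 : ℕ) / N : ℝ) : ℂ) - 1 / (2 * (N : ℝ)) := by
      rw [e2]; push_cast; ring
    have hst := LD_step (M := N) hN h3 (by rw [← e1']; exact h2) (by rw [← e2']; exact h1)
    rw [← e1', ← e2'] at hst
    have hx := exp_LS h3
    rw [← hst] at hx
    have e5 : ((sb ((m + 1 : ℕ) / N) : ℝ) : ℂ) =
        2 * Complex.sin (Real.pi * (((m + 1 : ℕ) / N : ℝ) : ℂ)) := by
      unfold sb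
      push_cast
      rfl
    rw [sf_succ, Complex.ofReal_mul, ih', e5, ← hx, ← Complex.exp_add]
    congr 1
    ring

lemma sf_top {N : ℕ} (hN : 0 < N) : sf N (N - 1) = N := by
  obtain ⟨n, rfl⟩ : ∃ n, N = n + 1 := ⟨N - 1, by omega⟩
  have hζ := Complex.isPrimitiveRoot_exp (n + 1) (by omega)
  have h := hζ.prod_one_sub_pow_eq_order
  have h2 := congrArg norm h
  rw [norm_prod] at h2
  have h3 : ‖((n : ℂ) + 1)‖ = ((n + 1 : ℕ) : ℝ) := by
    have : ((n : ℂ) + 1) = ((n + 1 : ℕ) : ℂ) := by push_cast; ring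
    rw [this, Complex.norm_natCast]
  rw [h3] at h2
  refine Eq.trans ?_ h2
  unfold sf
  rw [Nat.add_sub_cancel]
  apply Finset.prod_congr rfl
  intro k hk
  rw [Finset.mem_range] at hk
  have hpos : 0 < sb ((k + 1 : ℕ) / ((n + 1 : ℕ) : ℝ)) := by
    apply sb_pos
    · positivity
    · rw [div_lt_one (by positivity)]
      exact_mod_cast (by omega : k + 1 < n + 1)
  have e0 : ∀ w : ℂ, 1 - Complex.exp (2 * w * Complex.I) =
      2 * Complex.sin w * (-Complex.I * Complex.exp (w * Complex.I)) := by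
    intro w
    rw [Complex.sin]
    have h1 : Complex.exp (-w * Complex.I) * Complex.exp (w * Complex.I) = 1 := by
      rw [← Complex.exp_add]; ring_nf; simp
    have h4 : Complex.exp (w * Complex.I) * Complex.exp (w * Complex.I) =
        Complex.exp (2 * w * Complex.I) := by
      rw [← Complex.exp_add]; ring_nf
    linear_combination (-1 : ℂ) * h1 + h4 - (-Complex.exp (-w * Complex.I) *
      Complex.exp (w * Complex.I) + Complex.exp (w * Complex.I) * Complex.exp (w * Complex.I)) *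
      Complex.I_sq
  have e1 : Complex.exp (2 * Real.pi * Complex.I / ((n + 1 : ℕ) : ℂ)) ^ (k + 1) =
      Complex.exp (2 * ((Real.pi * ((k + 1 : ℕ) / ((n + 1 : ℕ) : ℝ)) : ℝ) : ℂ) * Complex.I) := by
    rw [← Complex.exp_nat_mul]
    congr 1
    push_cast
    field_simp
  rw [e1, e0, norm_mul, norm_mul, norm_mul, norm_neg, Complex.norm_I, one_mul,
    Complex.norm_exp_ofReal_mul_I, mul_one, RCLike.norm_ofNat, ← Complex.ofReal_sin,
    Complex.norm_real]
  unfold sb at hpos ⊢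
  rw [Real.norm_eq_abs, abs_of_pos (by linarith)]

/-- `sf N m = √N exp (LD N ((m + 1/2) / N))` -/
theorem sf_LD {N m : ℕ} (hm : m < N) : ((sf N m : ℝ) : ℂ) =
    Real.sqrt N * Complex.exp (LD N ((((m : ℝ) + 1 / 2) / N : ℝ) : ℂ)) := by
  have hN' : 0 < N := by omega
  have hN : (0 : ℝ) < N := by exact_mod_cast hN'
  have h1 := sf_LD_aux (N := N) (m := N - 1) (by omega)
  have e1 : ((((N - 1 : ℕ) : ℝ) + 1 / 2) / N : ℝ) = 1 - (1 / 2 / N : ℝ) := by
    rw [Nat.cast_sub (by omega)]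
    field_simp
    push_cast
    ring
  have e1' : (((((N - 1 : ℕ) : ℝ) + 1 / 2) / N : ℝ) : ℂ) = 1 - ((1 / 2 / N : ℝ) : ℂ) := by
    rw [e1]; push_cast; ring
  rw [sf_top hN', e1', LD_refl] at h1
  set A := LD N (((1 / 2 / N : ℝ)) : ℂ) with hA
  have hAr : A = ((A.re : ℝ) : ℂ) := LD_real N (1 / 2 / N)
  have h2 : (N : ℝ) = Real.exp (-(A.re)) ^ 2 := by
    have : ((N : ℝ) : ℂ) = ((Real.exp (-(A.re)) ^ 2 : ℝ) : ℂ) := by
      rw [h1, hAr]
      push_cast
      rw [← Complex.exp_nat_mul]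
      congr 1
      push_cast
      simp
      ring
    exact_mod_cast this
  have h3 : Real.sqrt N = Real.exp (-(A.re)) := by
    conv_lhs => rw [h2]
    exact Real.sqrt_sq (Real.exp_pos _).le
  rw [sf_LD_aux hm, h3, ← hA, sub_eq_add_neg, Complex.exp_add, mul_comm]
  congr 1
  conv_lhs => rw [hAr]
  push_cast
  rfl

end Pool.Agent.Helper48.QD
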