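import Pool.Agent.Helper48.QD.Cot
import Pool.Agent.Helper11.TB.Ee
import Pool.Agent.Helper9.TB.Gen

/-!
# Symmetries and product formulas
-/

namespace Pool.Agent.Helper48.QD

open MeasureTheory Set Filter Topology
open Pool.Agent.Helper9.TB (sb sf sf_zero sf_succ sf_pos ll)

lemma LL_neg (x : ℂ) : LL (-x) = -LL x := by
  unfold LL
  rw [← integral_neg]
  congr 1
  funext t
  unfold kl
  rw [neg_mul, Complex.sinh_neg]
  ring

lemma EM_neg (M : ℝ) (x : ℂ) : EM M (-x) = -EM M x := by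
  unfold EM
  rw [← integral_neg]
  congr 1
  funext t
  unfold ke
  rw [neg_mul, Complex.sinh_neg]
  ring

theorem LI_refl (z : ℂ) : LI (1 - z) = -LI z := by
  unfold LI
  rw [show 2 * (1 - z) - 1 = -(2 * z - 1) by ring, LL_neg]
  ring

theorem LD_refl (M : ℝ) (z : ℂ) : LD M (1 - z) = -LD M z := by
  unfold LD
  rw [LI_refl, show 2 * (1 - z) - 1 = -(2 * z - 1) by ring, EM_neg]
  ring

lemma conj_two : starRingEnd ℂ 2 = 2 := by
  rw [← Complex.ofReal_ofNat, Complex.conj_ofReal]

lemma LL_conj (x : ℂ) : LL (starRingEnd ℂ x) = starRingEnd ℂ (LL x) := by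
  unfold LL
  rw [← integral_conj]
  congr 1
  funext t
  unfold kl
  simp only [map_div₀, map_sub, map_mul, Complex.conj_ofReal, ← Complex.sinh_conj]

lemma EM_conj (M : ℝ) (x : ℂ) : EM M (starRingEnd ℂ x) = starRingEnd ℂ (EM M x) := by
  unfold EM
  rw [← integral_conj]
  congr 1
  funext t
  unfold ke
  simp only [map_mul, Complex.conj_ofReal, ← Complex.sinh_conj]

theorem LI_conj (z : ℂ) : LI (starRingEnd ℂ z) = starRingEnd ℂ (LI z) := by
  unfold LI
  have : 2 * (starRingEnd ℂ z) - 1 = starRingEnd ℂ (2 * z - 1) := by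
    rw [map_sub, map_mul, conj_two, map_one]
  rw [this, LL_conj, map_sub, map_mul, map_sub, map_div₀, map_div₀, conj_two, map_one,
    Complex.conj_ofReal]

theorem LD_conj (M : ℝ) (z : ℂ) : LD M (starRingEnd ℂ z) = starRingEnd ℂ (LD M z) := by
  unfold LD
  have : 2 * (starRingEnd ℂ z) - 1 = starRingEnd ℂ (2 * z - 1) := by
    rw [map_sub, map_mul, conj_two, map_one]
  rw [this, EM_conj, LI_conj, map_sub, map_mul, map_div₀, conj_two, Complex.conj_ofReal]

lemma LI_real (x : ℝ) : LI x = ((LI x).re : ℂ) := by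
  symm
  rw [← Complex.conj_eq_iff_re, ← LI_conj, Complex.conj_ofReal]

lemma LD_real (M x : ℝ) : LD M x = ((LD M x).re : ℂ) := by
  symm
  rw [← Complex.conj_eq_iff_re, ← LD_conj, Complex.conj_ofReal]

lemma real_VS {x : ℝ} (h0 : 0 < x) (h1 : x < 1) : (x : ℂ) ∈ VS := ⟨by simpa, by simpa⟩

lemma LI_half : LI (1 / 2) = 0 := by
  have := LI_refl (1 / 2)
  rw [show (1 : ℂ) - 1 / 2 = 1 / 2 by norm_num] at this
  linear_combination this / 2

/-- on the real axis `LI` is the function `ll` -/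
theorem LI_eq_ll {x : ℝ} (h0 : 0 < x) (h1 : x < 1) : LI x = (ll x : ℂ) := by
  have hd : ∀ t ∈ Ioo (0 : ℝ) 1, HasDerivAt (fun t : ℝ => LI t - (ll t : ℂ)) 0 t := by
    intro t ht
    have d1 := (LI_deriv (real_VS ht.1 ht.2)).comp_ofReal
    have d2 := (Pool.Agent.Helper11.TB.ll_deriv ht.1 ht.2).ofReal_comp
    refine (d1.sub d2).congr_deriv ?_
    unfold LS
    have hs : 0 ≤ 2 * Real.sin (Real.pi * t) := by
      have := (Real.sin_pos_of_pos_of_lt_pi (x := Real.pi * t) (by have := Real.pi_pos; nlinarith [ht.1])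
        (by have := Real.pi_pos; nlinarith [ht.2])).le
      linarith
    rw [Complex.ofReal_log hs]
    push_cast
    ring
  have hc := IsOpen.is_const_of_deriv_eq_zero (𝕜 := ℝ) (f := fun t : ℝ => LI t - (ll t : ℂ))
    (isOpen_Ioo (a := (0 : ℝ)) (b := 1)) (convex_Ioo 0 1).isPreconnected
    (fun t ht => (hd t ht).differentiableAt.differentiableWithinAt)
    (fun t ht => (hd t ht).deriv) (x := x) (y := 1 / 2) ⟨h0, h1⟩ ⟨by norm_num, by norm_num⟩
  simp only [Pool.Agent.Helper11.TB.ll_half] at hc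
  have e : ((1 / 2 : ℝ) : ℂ) = 1 / 2 := by norm_num
  rw [e, LI_half, Complex.ofReal_zero] at hc
  linear_combination hc

/-- products of sines along an arithmetic progression -/
theorem prod_LD {M : ℝ} (hM : 0 < M) (z : ℂ) (l n : ℕ)
    (h : ∀ k : ℕ, k ≤ n → z + (l + k - 1 / 2 : ℝ) / M ∈ VS) :
    ∏ k ∈ Finset.Ico l (l + n), 2 * Complex.sin (Real.pi * (z + (k : ℂ) / M)) =
      Complex.exp (LD M (z + (l + n - 1 / 2 : ℝ) / M) - LD M (z + (l - 1 / 2 : ℝ) / M)) := by
  have hMc : (M : ℂ) ≠ 0 := by exact_mod_cast hM.ne'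
  induction n with
  | zero => simp
  | succ n ih =>
    have h0 := h n (by omega)
    have h1 := h (n + 1) le_rfl
    have hm : z + ((l + n : ℕ) : ℂ) / M ∈ VS := by
      obtain ⟨a0, a1⟩ := h0
      obtain ⟨b0, b1⟩ := h1
      have e0 : (z + ((l + n - 1 / 2 : ℝ) : ℂ) / M).re = z.re + (l + n - 1 / 2) / M := by
        rw [← Complex.ofReal_div]; simp
      have e1 : (z + ((l + (n + 1 : ℕ) - 1 / 2 : ℝ) : ℂ) / M).re = z.re + (l + n + 1 / 2) / M := by
        rw [← Complex.ofReal_div]; simp; ring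
      have e2 : (z + ((l + n : ℕ) : ℂ) / M).re = z.re + (l + n) / M := by
        rw [← Complex.ofReal_natCast, ← Complex.ofReal_div]; simp
      rw [e0] at a0 a1
      rw [e1] at b0 b1
      have e3 : ((l : ℝ) + n - 1 / 2) / M ≤ (l + n) / M := by
        apply div_le_div_of_nonneg_right _ hM.le
        linarith
      have e4 : ((l : ℝ) + n) / M ≤ (l + n + 1 / 2) / M := by
        apply div_le_div_of_nonneg_right _ hM.le
        linarith
      constructor
      · rw [e2]; linarith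
      · rw [e2]; linarith
    have e5 : z + ((l + (n + 1 : ℕ) - 1 / 2 : ℝ) : ℂ) / M = z + ((l + n : ℕ) : ℂ) / M + 1 / (2 * M) := by
      push_cast; field_simp; ring
    have e6 : z + ((l + n - 1 / 2 : ℝ) : ℂ) / M = z + ((l + n : ℕ) : ℂ) / M - 1 / (2 * M) := by
      push_cast; field_simp; ring
    have hst := LD_step hM hm (by rw [← e5]; exact h1) (by rw [← e6]; exact h0)
    rw [← add_assoc, Finset.prod_Ico_succ_top (by omega), ih (fun k hk => h k (by omega)),
      ← exp_LS hm, ← hst, ← Complex.exp_add, ← e5, ← e6]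
    congr 1
    push_cast
    ring

end Pool.Agent.Helper48.QD
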