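import Pool.Agent.MBase

/-!
# Elementary estimates for hyperbolic functions (quantum dilogarithm)
-/

namespace Pool.Agent.Helper48.QD

open MeasureTheory Set Filter Topology

lemma norm_sinh_le (w : ℂ) : ‖Complex.sinh w‖ ≤ Real.cosh w.re := by
  rw [Complex.sinh, Real.cosh_eq]
  rw [norm_div, RCLike.norm_ofNat]
  have h1 := norm_sub_le (Complex.exp w) (Complex.exp (-w))
  rw [Complex.norm_exp, Complex.norm_exp, Complex.neg_re] at h1
  linarith

lemma norm_cosh_le (w : ℂ) : ‖Complex.cosh w‖ ≤ Real.cosh w.re := by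
  rw [Complex.cosh, Real.cosh_eq]
  rw [norm_div, RCLike.norm_ofNat]
  have h1 := norm_add_le (Complex.exp w) (Complex.exp (-w))
  rw [Complex.norm_exp, Complex.norm_exp, Complex.neg_re] at h1
  linarith

lemma le_sinh {t : ℝ} (ht : 0 ≤ t) : t ≤ Real.sinh t := Real.self_le_sinh_iff.2 ht

lemma exp_le_sinh {t : ℝ} (ht : 1 ≤ t) : Real.exp t / 4 ≤ Real.sinh t := by
  rw [Real.sinh_eq]
  have h1 : Real.exp (-t) ≤ Real.exp t / 2 := by
    rw [le_div_iff₀ (by norm_num)]
    have h2 : Real.exp (-t) ≤ Real.exp (-1) := Real.exp_le_exp.2 (by linarith)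
    have h3 : Real.exp 1 ≤ Real.exp t := Real.exp_le_exp.2 ht
    have h4 : (2 : ℝ) ≤ Real.exp 1 := by
      have := Real.add_one_le_exp (1 : ℝ); linarith
    have h5 : Real.exp (-1) * Real.exp 1 = 1 := by rw [← Real.exp_add]; simp
    nlinarith only [Real.exp_pos (-1 : ℝ), h5, h4, h3, h2]
  linarith

lemma sinh_le_mul_cosh {t : ℝ} (ht : 0 ≤ t) : Real.sinh t ≤ t * Real.cosh t := by
  have h1 : MonotoneOn (fun t : ℝ => t * Real.cosh t - Real.sinh t) (Ici 0) := by
    apply monotoneOn_of_deriv_nonneg (convex_Ici 0)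
    · fun_prop
    · fun_prop
    · intro u hu
      rw [interior_Ici, mem_Ioi] at hu
      have : HasDerivAt (fun t : ℝ => t * Real.cosh t - Real.sinh t)
          (1 * Real.cosh u + u * Real.sinh u - Real.cosh u) u :=
        ((hasDerivAt_id u).mul (Real.hasDerivAt_cosh u)).sub (Real.hasDerivAt_sinh u)
      rw [this.deriv]
      have := Real.sinh_pos_iff.2 hu
      nlinarith [mul_pos hu this]
  have := h1 (mem_Ici.2 le_rfl) (mem_Ici.2 ht) ht
  simp at this
  linarith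

/-- `0 ≤ 1 / x - 1 / sinh x ≤ x / 2` -/
lemma inv_sinh_bound {x : ℝ} (hx : 0 < x) : |1 / Real.sinh x - 1 / x| ≤ x / 2 := by
  have hs := Real.sinh_pos_iff.2 hx
  have h1 := le_sinh hx.le
  have h2 : 1 / Real.sinh x ≤ 1 / x := one_div_le_one_div_of_le hx h1
  rw [abs_sub_comm, abs_of_nonneg (by linarith)]
  have h3 := sinh_le_mul_cosh hx.le
  have h4 : Real.cosh x ≤ Real.exp (x ^ 2 / 2) := Real.cosh_le_exp_half_sq x
  have h5 : 1 - x ^ 2 / 2 ≤ Real.exp (-(x ^ 2 / 2)) := Real.one_sub_le_exp_neg _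
  have h6 : Real.exp (-(x ^ 2 / 2)) * Real.exp (x ^ 2 / 2) = 1 := by
    rw [← Real.exp_add]; simp
  have h7 : (1 - x ^ 2 / 2) * Real.sinh x ≤ x := by
    by_cases h : 0 ≤ 1 - x ^ 2 / 2
    · calc (1 - x ^ 2 / 2) * Real.sinh x ≤ Real.exp (-(x ^ 2 / 2)) * (x * Real.exp (x ^ 2 / 2)) := by
            apply mul_le_mul h5 (h3.trans (mul_le_mul_of_nonneg_left h4 hx.le)) hs.le (Real.exp_pos _).le
        _ = x := by linear_combination x * h6
    · push Not at h
      nlinarith only [mul_pos (neg_pos.2 h) hs, hs, h, hx]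
  have h8 : (1 - x ^ 2 / 2) / x ≤ 1 / Real.sinh x := by
    rw [div_le_div_iff₀ hx hs, one_mul]
    exact h7
  have h9 : (1 - x ^ 2 / 2) / x = 1 / x - x / 2 := by
    field_simp
  linarith

/-- bound for `cosh w - 1` -/
lemma norm_cosh_sub_one_le (w : ℂ) : ‖Complex.cosh w - 1‖ ≤ ‖w‖ ^ 2 * Real.exp ‖w‖ := by
  have h1 := Complex.norm_exp_sub_sum_le_norm_mul_exp w 2
  have h2 := Complex.norm_exp_sub_sum_le_norm_mul_exp (-w) 2
  rw [norm_neg] at h2
  simp only [Finset.sum_range_succ, Finset.sum_range_zero] at h1 h2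
  have e : Complex.cosh w - 1 = ((Complex.exp w - (0 + w ^ 0 / (Nat.factorial 0 : ℂ) +
      w ^ 1 / (Nat.factorial 1 : ℂ))) + (Complex.exp (-w) - (0 + (-w) ^ 0 / (Nat.factorial 0 : ℂ) +
      (-w) ^ 1 / (Nat.factorial 1 : ℂ)))) / 2 := by
    rw [Complex.cosh]
    simp
    ring
  rw [e, norm_div, RCLike.norm_ofNat]
  have h3 := norm_add_le (Complex.exp w - (0 + w ^ 0 / (Nat.factorial 0 : ℂ) +
      w ^ 1 / (Nat.factorial 1 : ℂ))) (Complex.exp (-w) - (0 + (-w) ^ 0 / (Nat.factorial 0 : ℂ) +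
      (-w) ^ 1 / (Nat.factorial 1 : ℂ)))
  linarith only [h3, h2, h1]

/-- the strip -/
def Strip : Set ℂ := {x | |x.re| < 1}

lemma isOpen_Strip : IsOpen Strip := isOpen_lt (continuous_abs.comp Complex.continuous_re) continuous_const

end Pool.Agent.Helper48.QD
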