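import Pool.Agent.Helper48.QD.Integ

/-!
# The cotangent integral, the logarithm of the sine, and the functional equation
-/

namespace Pool.Agent.Helper48.QD

open MeasureTheory Set Filter Topology

lemma exp_int {a : ℂ} (ha : a.re < 0) : Integrable (fun t : ℝ => Complex.exp (a * t))
    (volume.restrict (Ioi 0)) := integrableOn_exp_mul_complex_Ioi ha 0

lemma exp_integral {a : ℂ} (ha : a.re < 0) : ∫ t in Ioi (0 : ℝ), Complex.exp (a * t) = -(1 / a) := by
  rw [integral_exp_mul_complex_Ioi ha]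
  simp
  ring

/-- the partial geometric sums -/
lemma ks_partial (x : ℂ) {t : ℝ} (ht : 0 < t) (K : ℕ) :
    ks x t * ((1 - Real.exp (-(2 * K * t)) : ℝ) : ℂ) =
      ∑ k ∈ Finset.range K, (Complex.exp ((x - (2 * k + 1)) * t) -
        Complex.exp ((-x - (2 * k + 1)) * t)) := by
  have hs : (Real.exp t - Real.exp (-t) : ℝ) ≠ 0 := by
    have : Real.exp (-t) < Real.exp t := Real.exp_lt_exp.2 (by linarith)
    linarith
  have hs' : (Complex.exp (t : ℂ) - Complex.exp (-(t : ℂ))) ≠ 0 := by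
    have : ((Real.exp t - Real.exp (-t) : ℝ) : ℂ) ≠ 0 := by exact_mod_cast hs
    push_cast at this
    exact this
  have hk : ks x t = (Complex.exp (x * t) - Complex.exp (-(x * t))) /
      (Complex.exp (t : ℂ) - Complex.exp (-(t : ℂ))) := by
    unfold ks
    rw [Complex.ofReal_sinh, Complex.sinh, Complex.sinh]
    field_simp
  rw [hk, div_mul_eq_mul_div, div_eq_iff hs']
  induction K with
  | zero => simp
  | succ K ih =>
    rw [Finset.sum_range_succ, add_mul, ← ih]
    push_cast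
    have e1 : Complex.exp (-(2 * (K + 1) * t)) = Complex.exp (-(2 * K * t)) * Complex.exp (-(2 * t)) := by
      rw [← Complex.exp_add]; ring_nf
    have e2 : Complex.exp ((x - (2 * K + 1)) * t) = Complex.exp (x * t) * Complex.exp (-(2 * K * t)) *
        Complex.exp (-t) := by
      rw [← Complex.exp_add, ← Complex.exp_add]; ring_nf
    have e3 : Complex.exp ((-x - (2 * K + 1)) * t) = Complex.exp (-(x * t)) *
        Complex.exp (-(2 * K * t)) * Complex.exp (-t) := by
      rw [← Complex.exp_add, ← Complex.exp_add]; ring_nf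
    have e4 : Complex.exp (-(t : ℂ)) * Complex.exp (t : ℂ) = 1 := by
      rw [← Complex.exp_add]; simp
    have e5 : Complex.exp (-(2 * (t : ℂ))) = Complex.exp (-(t : ℂ)) * Complex.exp (-(t : ℂ)) := by
      rw [← Complex.exp_add]; ring_nf
    rw [e1, e2, e3, e5]
    linear_combination (-(Complex.exp (x * t) * Complex.exp (-(2 * K * t))) +
      Complex.exp (-(x * t)) * Complex.exp (-(2 * K * t))) * e4

lemma ks_partial_integral {x : ℂ} (hx : x ∈ Strip) (K : ℕ) :
    ∫ t in Ioi (0 : ℝ), ks x t * ((1 - Real.exp (-(2 * K * t)) : ℝ) : ℂ) =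
      ∑ k ∈ Finset.range K, (1 / (2 * k + 1 - x) - 1 / (2 * k + 1 + x)) := by
  have hx' := abs_lt.1 (show |x.re| < 1 from hx)
  have h1 : ∀ k : ℕ, (x - (2 * k + 1)).re < 0 := by
    intro k
    have : (0 : ℝ) ≤ k := Nat.cast_nonneg k
    simp
    linarith
  have h2 : ∀ k : ℕ, (-x - (2 * k + 1)).re < 0 := by
    intro k
    have : (0 : ℝ) ≤ k := Nat.cast_nonneg k
    simp
    linarith
  rw [setIntegral_congr_fun measurableSet_Ioi (fun t ht => ks_partial x ht K),
    integral_finsetSum (f := fun (k : ℕ) (t : ℝ) => Complex.exp ((x - (2 * k + 1)) * t) -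
      Complex.exp ((-x - (2 * k + 1)) * t)) _ (fun k _ => (exp_int (h1 k)).sub (exp_int (h2 k)))]
  apply Finset.sum_congr rfl
  intro k _
  rw [integral_sub (exp_int (h1 k)) (exp_int (h2 k)), exp_integral (h1 k), exp_integral (h2 k)]
  rw [← one_div_neg_eq_neg_one_div, ← one_div_neg_eq_neg_one_div]
  ring_nf

lemma tendsto_partial {x : ℂ} (hx : x ∈ Strip) :
    Tendsto (fun K : ℕ => ∫ t in Ioi (0 : ℝ), ks x t * ((1 - Real.exp (-(2 * K * t)) : ℝ) : ℂ))
      atTop (𝓝 (SL x)) := by
  apply tendsto_integral_of_dominated_convergence (bound := fun t => ‖ks x t‖)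
  · intro K
    apply (ks_meas x).mul
    apply Continuous.aestronglyMeasurable
    fun_prop
  · exact (ks_int hx).norm
  · intro K
    apply ae_Ioi
    intro t ht
    rw [norm_mul]
    apply mul_le_of_le_one_right (norm_nonneg _)
    rw [Complex.norm_real, Real.norm_eq_abs, abs_le]
    have h1 := Real.exp_pos (-(2 * K * t))
    have h2 : Real.exp (-(2 * K * t)) ≤ 1 := by
      rw [Real.exp_le_one_iff]
      have : (0 : ℝ) ≤ 2 * K * t := by positivity
      linarith
    constructor <;> linarith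
  · apply ae_Ioi
    intro t ht
    have h1 : Tendsto (fun K : ℕ => Real.exp (-(2 * K * t))) atTop (𝓝 0) := by
      apply Real.tendsto_exp_atBot.comp
      apply tendsto_neg_atTop_atBot.comp
      have : Tendsto (fun K : ℕ => 2 * t * (K : ℝ)) atTop atTop :=
        tendsto_natCast_atTop_atTop.const_mul_atTop (by positivity)
      refine this.congr fun K => ?_
      ring
    have h2 : Tendsto (fun K : ℕ => ks x t * ((1 - Real.exp (-(2 * K * t)) : ℝ) : ℂ)) atTop
        (𝓝 (ks x t * ((1 - 0 : ℝ) : ℂ))) := by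
      apply Tendsto.const_mul
      exact (Complex.continuous_ofReal.tendsto _).comp (h1.const_sub 1)
    simpa using h2

lemma int_compl {z : ℂ} (h0 : 0 < z.re) (h1 : z.re < 1) : z ∈ Complex.integerComplement := by
  rw [Complex.mem_integerComplement_iff]
  rintro ⟨n, hn⟩
  rw [← hn, Complex.intCast_re] at h0 h1
  have h2 : (0 : ℤ) < n := by exact_mod_cast h0
  have h3 : n < (1 : ℤ) := by exact_mod_cast h1
  omega

lemma sum_partial (z : ℂ) (K : ℕ) :
    ∑ k ∈ Finset.range K, (1 / ((k : ℂ) + 1 - z) - 1 / (k + z)) =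
      -(∑ k ∈ Finset.range K, (1 / (z - (k + 1)) + 1 / (z + (k + 1)))) - 1 / z + 1 / (z + K) := by
  induction K with
  | zero => simp
  | succ K ih =>
    rw [Finset.sum_range_succ, Finset.sum_range_succ, ih]
    have e1 : (1 : ℂ) / ((K : ℂ) + 1 - z) = -(1 / (z - (K + 1))) := by
      rw [← one_div_neg_eq_neg_one_div]; ring_nf
    rw [e1]
    push_cast
    ring_nf

theorem SL_eq {z : ℂ} (h0 : 0 < z.re) (h1 : z.re < 1) :
    2 * SL (2 * z - 1) = -(Real.pi * Complex.cot (Real.pi * z)) := by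
  have hx : (2 * z - 1) ∈ Strip := by
    show |(2 * z - 1).re| < 1
    rw [abs_lt]
    simp
    constructor <;> linarith
  have t1 := (tendsto_partial hx).const_mul 2
  simp_rw [ks_partial_integral hx] at t1
  have e : ∀ K : ℕ, 2 * ∑ k ∈ Finset.range K, (1 / (2 * (k : ℂ) + 1 - (2 * z - 1)) -
      1 / (2 * k + 1 + (2 * z - 1))) = ∑ k ∈ Finset.range K, (1 / ((k : ℂ) + 1 - z) - 1 / (k + z)) := by
    intro K
    rw [Finset.mul_sum]
    apply Finset.sum_congr rfl
    intro k _
    have e1 : (2 * (k : ℂ) + 1 - (2 * z - 1)) = 2 * (k + 1 - z) := by ring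
    have e2 : (2 * (k : ℂ) + 1 + (2 * z - 1)) = 2 * (k + z) := by ring
    rw [e1, e2, one_div, one_div, one_div, one_div, mul_inv, mul_inv]
    ring
  simp_rw [e, sum_partial z] at t1
  have hc := int_compl h0 h1
  have t2 : Tendsto (fun K : ℕ => ∑ k ∈ Finset.range K, (1 / (z - (k + 1)) + 1 / (z + (k + 1))))
      atTop (𝓝 (Real.pi * Complex.cot (Real.pi * z) - 1 / z)) := tendsto_logDeriv_euler_cot_sub hc
  have t3 : Tendsto (fun K : ℕ => 1 / (z + (K : ℂ))) atTop (𝓝 0) := by
    simp_rw [one_div]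
    apply tendsto_inv₀_cobounded.comp
    exact (tendsto_const_add_cobounded z).comp tendsto_natCast_atTop_cobounded
  have t4 := (t2.neg.sub_const (1 / z)).add t3
  have := tendsto_nhds_unique t1 t4
  rw [this]
  ring

/-! ### the logarithm of `2 sin π z` -/

/-- the vertical strip `0 < Re z < 1` -/
def VS : Set ℂ := {z | 0 < z.re ∧ z.re < 1}

lemma isOpen_VS : IsOpen VS :=
  (isOpen_lt continuous_const Complex.continuous_re).inter
    (isOpen_lt Complex.continuous_re continuous_const)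

lemma convex_VS : Convex ℝ VS := by
  have h1 : Convex ℝ {z : ℂ | 0 < z.re} := convex_halfSpace_re_gt 0
  have h2 : Convex ℝ {z : ℂ | z.re < 1} := convex_halfSpace_re_lt 1
  exact h1.inter h2

lemma VS_strip {z : ℂ} (hz : z ∈ VS) : 2 * z - 1 ∈ Strip := by
  show |(2 * z - 1).re| < 1
  obtain ⟨h0, h1⟩ := hz
  rw [abs_lt]
  simp
  constructor <;> linarith

/-- `log (2 sin π z)` -/
noncomputable def LS (z : ℂ) : ℂ := Complex.log (2 * Complex.sin (Real.pi * z))

lemma sin_re_pos {z : ℂ} (hz : z ∈ VS) : 0 < (2 * Complex.sin (Real.pi * z)).re := by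
  obtain ⟨h0, h1⟩ := hz
  have hpi := Real.pi_pos
  have e : (2 * Complex.sin (Real.pi * z)).re =
      2 * (Real.sin (Real.pi * z.re) * Real.cosh (Real.pi * z.im)) := by
    have h2 : (Real.pi : ℂ) * z = ((Real.pi * z.re : ℝ) : ℂ) + ((Real.pi * z.im : ℝ) : ℂ) * Complex.I := by
      conv_lhs => rw [← Complex.re_add_im z]
      push_cast
      ring
    rw [h2, Complex.sin_add_mul_I, ← Complex.ofReal_sin, ← Complex.ofReal_cosh,
      ← Complex.ofReal_cos, ← Complex.ofReal_sinh]
    generalize Real.sin (Real.pi * z.re) = a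
    generalize Real.cosh (Real.pi * z.im) = b
    generalize Real.cos (Real.pi * z.re) = c
    generalize Real.sinh (Real.pi * z.im) = d
    simp
  rw [e]
  have h3 : 0 < Real.sin (Real.pi * z.re) :=
    Real.sin_pos_of_pos_of_lt_pi (by positivity) (by nlinarith)
  have h4 := Real.cosh_pos (Real.pi * z.im)
  positivity

lemma sin_slit {z : ℂ} (hz : z ∈ VS) : 2 * Complex.sin (Real.pi * z) ∈ Complex.slitPlane :=
  Or.inl (sin_re_pos hz)

lemma exp_LS {z : ℂ} (hz : z ∈ VS) : Complex.exp (LS z) = 2 * Complex.sin (Real.pi * z) := by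
  unfold LS
  rw [Complex.exp_log (Complex.slitPlane_ne_zero (sin_slit hz))]

lemma LS_deriv {z : ℂ} (hz : z ∈ VS) :
    HasDerivAt LS (Real.pi * Complex.cot (Real.pi * z)) z := by
  have h1 : HasDerivAt (fun z : ℂ => (Real.pi : ℂ) * z) Real.pi z := by
    simpa using (hasDerivAt_id z).const_mul (Real.pi : ℂ)
  have h2 : HasDerivAt (fun z : ℂ => Complex.sin (Real.pi * z))
      (Complex.cos (Real.pi * z) * Real.pi) z :=
    HasDerivAt.comp (h₂ := Complex.sin) z (Complex.hasDerivAt_sin _) h1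
  have h3 := (h2.const_mul 2).clog (sin_slit hz)
  refine h3.congr_deriv ?_
  rw [Complex.cot_eq_cos_div_sin]
  field_simp

lemma CL_zero : CL 0 = 0 := by
  unfold CL kc
  simp

/-- `log (2 sin π z) = log 2 - CL (2 z - 1)` -/
theorem LS_eq {z : ℂ} (hz : z ∈ VS) : LS z = Real.log 2 - CL (2 * z - 1) := by
  have hd : ∀ w ∈ VS, HasDerivAt (fun w => LS w + CL (2 * w - 1)) 0 w := by
    intro w hw
    have h1 : HasDerivAt (fun w : ℂ => 2 * w - 1) 2 w := by
      simpa using ((hasDerivAt_id w).const_mul (2 : ℂ)).sub_const 1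
    have h2 : HasDerivAt (fun w => CL (2 * w - 1)) (SL (2 * w - 1) * 2) w :=
      HasDerivAt.comp (h₂ := CL) w (CL_deriv (VS_strip hw)) h1
    refine ((LS_deriv hw).add h2).congr_deriv ?_
    have := SL_eq hw.1 hw.2
    linear_combination this
  have hhalf : (1 / 2 : ℂ) ∈ VS := by
    constructor
    · norm_num
    · norm_num
  have h3 : (fun w => LS w + CL (2 * w - 1)) z = (fun w => LS w + CL (2 * w - 1)) (1 / 2) := by
    have hdiff : DifferentiableOn ℂ (fun w => LS w + CL (2 * w - 1)) VS :=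
      fun w hw => (hd w hw).differentiableAt.differentiableWithinAt
    exact isOpen_VS.is_const_of_deriv_eq_zero convex_VS.isPreconnected hdiff
      (fun w hw => (hd w hw).deriv) hz hhalf
  have h4 : LS (1 / 2) = Real.log 2 := by
    unfold LS
    rw [show (Real.pi : ℂ) * (1 / 2) = ((Real.pi / 2 : ℝ) : ℂ) by push_cast; ring,
      ← Complex.ofReal_sin, Real.sin_pi_div_two]
    rw [Complex.ofReal_log (by norm_num)]
    simp
  have h5 : CL (2 * (1 / 2) - 1) = 0 := by
    rw [show (2 : ℂ) * (1 / 2) - 1 = 0 by norm_num, CL_zero]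
  simp only [h4, h5] at h3
  linear_combination h3

/-! ### the quantum dilogarithm -/

/-- the primitive of `log (2 sin π z)` vanishing at `1 / 2` -/
noncomputable def LI (z : ℂ) : ℂ := (z - 1 / 2) * Real.log 2 - LL (2 * z - 1) / 2

/-- logarithm of the quantum dilogarithm -/
noncomputable def LD (M : ℝ) (z : ℂ) : ℂ := M * LI z - EM M (2 * z - 1) / 2

theorem LI_deriv {z : ℂ} (hz : z ∈ VS) : HasDerivAt LI (LS z) z := by
  have h1 : HasDerivAt (fun w : ℂ => 2 * w - 1) 2 z := by
    simpa using ((hasDerivAt_id z).const_mul (2 : ℂ)).sub_const 1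
  have h2 : HasDerivAt (fun w => LL (2 * w - 1)) (CL (2 * z - 1) * 2) z :=
    HasDerivAt.comp (h₂ := LL) z (LL_deriv (VS_strip hz)) h1
  have h3 : HasDerivAt (fun z : ℂ => (z - 1 / 2) * (Real.log 2 : ℂ)) (1 * Real.log 2) z :=
    ((hasDerivAt_id z).sub_const (1 / 2)).mul_const _
  refine (h3.sub (h2.div_const 2)).congr_deriv ?_
  rw [LS_eq hz]
  ring

theorem LD_diff {M : ℝ} (hM : 0 < M) : DifferentiableOn ℂ (LD M) VS := by
  intro z hz
  have h1 : HasDerivAt (fun w : ℂ => 2 * w - 1) 2 z := by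
    simpa using ((hasDerivAt_id z).const_mul (2 : ℂ)).sub_const 1
  have h2 := HasDerivAt.comp (h₂ := EM M) z (EM_deriv hM (VS_strip hz)) h1
  exact (((LI_deriv hz).const_mul (M : ℂ)).sub (h2.div_const 2)).differentiableAt.differentiableWithinAt

/-- pointwise identity of the kernels -/
lemma kern_id {M : ℝ} (hM : 0 < M) (x : ℂ) {t : ℝ} (ht : 0 < t) :
    (M / 2 : ℂ) * (kl (x + 1 / M) t - kl (x - 1 / M) t) +
      (1 / 2) * (ke M (x + 1 / M) t - ke M (x - 1 / M) t) = kc x t := by
  have hs := (Real.sinh_pos_iff.2 ht).ne'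
  have hsM := (Real.sinh_pos_iff.2 (div_pos ht hM)).ne'
  have h2 : (t : ℂ) ≠ 0 := by exact_mod_cast ht.ne'
  have h3 : ((Real.sinh t : ℝ) : ℂ) ≠ 0 := by exact_mod_cast hs
  have h4 : (M : ℂ) ≠ 0 := by exact_mod_cast hM.ne'
  have h5 : ((Real.sinh (t / M) : ℝ) : ℂ) ≠ 0 := by exact_mod_cast hsM
  have e1 : Complex.sinh ((x + 1 / M) * t) = Complex.sinh (x * t) * Complex.cosh (t / M) +
      Complex.cosh (x * t) * Complex.sinh (t / M) := by
    rw [← Complex.sinh_add]; congr 1; field_simp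
  have e2 : Complex.sinh ((x - 1 / M) * t) = Complex.sinh (x * t) * Complex.cosh (t / M) -
      Complex.cosh (x * t) * Complex.sinh (t / M) := by
    rw [← Complex.sinh_sub]; congr 1; field_simp
  have e3 : Complex.sinh ((t : ℂ) / M) = ((Real.sinh (t / M) : ℝ) : ℂ) := by
    push_cast; rfl
  unfold kl ke kc gm
  rw [e1, e2, e3]
  push_cast
  push_cast at h3 h5
  field_simp
  ring

/-- the functional equation -/
theorem LD_step {M : ℝ} (hM : 0 < M) {z : ℂ} (hz : z ∈ VS) (h1 : z + 1 / (2 * M) ∈ VS)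
    (h2 : z - 1 / (2 * M) ∈ VS) : LD M (z + 1 / (2 * M)) - LD M (z - 1 / (2 * M)) = LS z := by
  have h4 : (M : ℂ) ≠ 0 := by exact_mod_cast hM.ne'
  have s1 := VS_strip h1
  have s2 := VS_strip h2
  have e1 : 2 * (z + 1 / (2 * M)) - 1 = (2 * z - 1) + 1 / M := by field_simp; ring
  have e2 : 2 * (z - 1 / (2 * M)) - 1 = (2 * z - 1) - 1 / M := by field_simp; ring
  rw [e1] at s1
  rw [e2] at s2
  rw [LS_eq hz]
  have key : (M / 2 : ℂ) * (LL (2 * z - 1 + 1 / M) - LL (2 * z - 1 - 1 / M)) +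
      (1 / 2) * (EM M (2 * z - 1 + 1 / M) - EM M (2 * z - 1 - 1 / M)) = CL (2 * z - 1) := by
    unfold LL EM CL
    have i1 : Integrable (fun t => (M / 2 : ℂ) * (kl (2 * z - 1 + 1 / M) t -
      kl (2 * z - 1 - 1 / M) t)) (volume.restrict (Ioi 0)) :=
      ((kl_int s1).sub (kl_int s2)).const_mul _
    have i2 : Integrable (fun t => (1 / 2 : ℂ) * (ke M (2 * z - 1 + 1 / M) t -
      ke M (2 * z - 1 - 1 / M) t)) (volume.restrict (Ioi 0)) :=
      ((ke_int hM s1).sub (ke_int hM s2)).const_mul _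
    rw [← integral_sub (kl_int s1) (kl_int s2), ← integral_sub (ke_int hM s1) (ke_int hM s2),
      ← integral_const_mul, ← integral_const_mul, ← integral_add i1 i2]
    apply setIntegral_congr_fun measurableSet_Ioi
    intro t ht
    exact kern_id hM _ ht
  unfold LD LI
  rw [e1, e2]
  have e5 : (M : ℂ) * ((z + 1 / (2 * M) - 1 / 2) * (Real.log 2 : ℂ)) -
      M * ((z - 1 / (2 * M) - 1 / 2) * (Real.log 2 : ℂ)) = Real.log 2 := by
    field_simp
    ring
  linear_combination e5 - key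

/-- asymptotics on compact subsets -/
theorem LD_asymp {ε B : ℝ} (hε : 0 < ε) : ∃ C, ∀ M > 0, ∀ z : ℂ, ε ≤ z.re → z.re ≤ 1 - ε →
    ‖z‖ ≤ B → ‖LD M z - M * LI z‖ ≤ C / M := by
  obtain ⟨C, hC⟩ := EM_bound (ε := 2 * ε) (B := 2 * B + 1) (by linarith)
  refine ⟨C / 2, fun M hM z h0 h1 hB => ?_⟩
  have h2 := hC M hM (2 * z - 1) (by
    rw [abs_le]
    simp
    constructor <;> linarith) (by
    refine (norm_sub_le _ _).trans ?_
    rw [norm_mul, RCLike.norm_ofNat, norm_one]
    linarith)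
  have e : LD M z - M * LI z = -(EM M (2 * z - 1) / 2) := by
    unfold LD; ring
  rw [e, norm_neg, norm_div, RCLike.norm_ofNat]
  calc ‖EM M (2 * z - 1)‖ / 2 ≤ C / M / 2 := by gcongr
    _ = C / 2 / M := by ring

end Pool.Agent.Helper48.QD
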