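import Pool.Agent.Helper48.QD.Prod

/-!
# Products over a full period
-/

namespace Pool.Agent.Helper48.QD

open MeasureTheory Set Filter Topology
open Pool.Agent.Helper9.TB (sb sf sf_zero sf_succ sf_pos ll)

lemma prod_root {N : ℕ} (hN : 0 < N) {ζ : ℂ} (hζ : IsPrimitiveRoot ζ N) (x : ℂ) :
    ∏ k ∈ Finset.range N, (1 - ζ ^ k * x) = 1 - x ^ N := by
  have h := hζ.pow_sub_pow_eq_prod_sub_mul 1 x hN
  rw [one_pow] at h
  rw [h]
  apply Finset.prod_bij (fun k _ => ζ ^ k)
  · intro k _
    rw [Polynomial.mem_nthRootsFinset hN]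
    rw [← pow_mul, mul_comm, pow_mul, hζ.pow_eq_one, one_pow]
  · intro a ha b hb hab
    rw [Finset.mem_range] at ha hb
    exact hζ.pow_inj ha hb hab
  · intro b hb
    rw [Polynomial.mem_nthRootsFinset hN] at hb
    haveI : NeZero N := ⟨hN.ne'⟩
    obtain ⟨i, hi, rfl⟩ := hζ.eq_pow_of_pow_eq_one hb
    exact ⟨i, Finset.mem_range.2 hi, rfl⟩
  · intro k _
    ring

/-- `∏_{k < N} 2 sin π (z + k / N) = 2 sin (π N z)` -/
theorem prod_sin_full {N : ℕ} (hN : 0 < N) (z : ℂ) :
    ∏ k ∈ Finset.range N, 2 * Complex.sin (Real.pi * (z + (k : ℂ) / N)) =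
      2 * Complex.sin (Real.pi * (N * z)) := by
  have hNc : (N : ℂ) ≠ 0 := by exact_mod_cast hN.ne'
  have hζ := Complex.isPrimitiveRoot_exp N hN.ne'
  have e0 : ∀ w : ℂ, 2 * Complex.sin w = Complex.I * Complex.exp (-w * Complex.I) *
      (1 - Complex.exp (2 * w * Complex.I)) := by
    intro w
    rw [Complex.sin]
    have : Complex.exp (-w * Complex.I) * Complex.exp (2 * w * Complex.I) =
        Complex.exp (w * Complex.I) := by
      rw [← Complex.exp_add]; ring_nf
    linear_combination (Complex.I) * this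
  have e1 : ∀ k : ℕ, 2 * Complex.sin (Real.pi * (z + (k : ℂ) / N)) =
      (Complex.I * Complex.exp (-(Real.pi * z) * Complex.I)) *
      Complex.exp (-(Real.pi / N * Complex.I)) ^ k *
      (1 - Complex.exp (2 * Real.pi * Complex.I / N) ^ k * Complex.exp (2 * Real.pi * z * Complex.I)) := by
    intro k
    have f1 : Complex.exp (-(Real.pi * (z + (k : ℂ) / N)) * Complex.I) =
        Complex.exp (-(Real.pi * z) * Complex.I) * Complex.exp (-(Real.pi / N * Complex.I)) ^ k := by
      rw [← Complex.exp_nat_mul, ← Complex.exp_add]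
      congr 1
      field_simp
      ring
    have f2 : Complex.exp (2 * (Real.pi * (z + (k : ℂ) / N)) * Complex.I) =
        Complex.exp (2 * Real.pi * Complex.I / N) ^ k * Complex.exp (2 * Real.pi * z * Complex.I) := by
      rw [← Complex.exp_nat_mul, ← Complex.exp_add]
      congr 1
      field_simp
      ring
    rw [e0, f1, f2]
    ring
  simp_rw [e1]
  rw [Finset.prod_mul_distrib, Finset.prod_mul_distrib, prod_root hN hζ, Finset.prod_const,
    Finset.card_range, Finset.prod_pow_eq_pow_sum, e0]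
  have e2 : Complex.exp (2 * Real.pi * z * Complex.I) ^ N =
      Complex.exp (2 * (Real.pi * (N * z)) * Complex.I) := by
    rw [← Complex.exp_nat_mul]; ring_nf
  rw [e2]
  congr 1
  have e3 : (∑ i ∈ Finset.range N, i : ℕ) * 2 = N * (N - 1) := Finset.sum_range_id_mul_two N
  obtain ⟨n, rfl⟩ : ∃ n, N = n + 1 := ⟨N - 1, by omega⟩
  have e4 : Complex.exp (-(Real.pi / ((n + 1 : ℕ) : ℂ) * Complex.I)) ^
      (∑ i ∈ Finset.range (n + 1), i) = (-Complex.I) ^ n := by
    rw [← Complex.exp_nat_mul]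
    have e5 : -Complex.I = Complex.exp (-(Real.pi / 2 * Complex.I)) := by
      rw [Complex.exp_neg, Complex.exp_pi_div_two_mul_I, Complex.inv_I]
    rw [e5, ← Complex.exp_nat_mul]
    congr 1
    have e6 : (((∑ i ∈ Finset.range (n + 1), i : ℕ) : ℂ)) * 2 = (n + 1 : ℕ) * n := by
      have := congrArg (Nat.cast (R := ℂ)) e3
      push_cast at this ⊢
      simpa using this
    have e7 : ((n + 1 : ℕ) : ℂ) ≠ 0 := hNc
    field_simp
    push_cast at e6 ⊢
    linear_combination (-1 : ℂ) * e6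
  rw [e4, mul_pow, ← Complex.exp_nat_mul]
  have e8 : Complex.I ^ (n + 1) * (-Complex.I) ^ n = Complex.I := by
    rw [pow_succ, mul_right_comm, ← mul_pow]
    simp
  have e9 : (((n + 1 : ℕ) : ℂ)) * (-(Real.pi * z) * Complex.I) =
      -(Real.pi * ((n + 1 : ℕ) * z)) * Complex.I := by ring
  rw [e9]
  linear_combination (Complex.exp (-(Real.pi * ((n + 1 : ℕ) * z)) * Complex.I)) * e8

end Pool.Agent.Helper48.QD
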