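import Pool.Agent.Helper48.QD.Kern

/-!
# The integrals and their derivatives
-/

namespace Pool.Agent.Helper48.QD

open MeasureTheory Set Filter Topology

noncomputable def SL (x : ℂ) : ℂ := ∫ t in Ioi (0 : ℝ), ks x t
noncomputable def CL (x : ℂ) : ℂ := ∫ t in Ioi (0 : ℝ), kc x t
noncomputable def LL (x : ℂ) : ℂ := ∫ t in Ioi (0 : ℝ), kl x t
noncomputable def EM (M : ℝ) (x : ℂ) : ℂ := ∫ t in Ioi (0 : ℝ), ke M x t

lemma lin_deriv (x : ℂ) (t : ℝ) : HasDerivAt (fun x : ℂ => x * (t : ℂ)) (t : ℂ) x := by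
  simpa using (hasDerivAt_id x).mul_const (t : ℂ)

lemma sinh_deriv (x : ℂ) (t : ℝ) :
    HasDerivAt (fun x : ℂ => Complex.sinh (x * (t : ℂ))) (Complex.cosh (x * t) * t) x :=
  HasDerivAt.comp (h₂ := Complex.sinh) x (Complex.hasDerivAt_sinh _) (lin_deriv x t)

lemma cosh_deriv (x : ℂ) (t : ℝ) :
    HasDerivAt (fun x : ℂ => Complex.cosh (x * (t : ℂ))) (Complex.sinh (x * t) * t) x :=
  HasDerivAt.comp (h₂ := Complex.cosh) x (Complex.hasDerivAt_cosh _) (lin_deriv x t)

lemma kl_deriv (x : ℂ) {t : ℝ} (ht : 0 < t) : HasDerivAt (fun x => kl x t) (kc x t) x := by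
  have hs := (Real.sinh_pos_iff.2 ht).ne'
  have h1 := ((sinh_deriv x t).sub (lin_deriv x t)).div_const ((t ^ 2 * Real.sinh t : ℝ) : ℂ)
  refine h1.congr_deriv ?_
  unfold kc
  have h2 : (t : ℂ) ≠ 0 := by exact_mod_cast ht.ne'
  have h3 : ((Real.sinh t : ℝ) : ℂ) ≠ 0 := by exact_mod_cast hs
  push_cast
  rw [Complex.ofReal_sinh] at h3
  field_simp

lemma kc_deriv (x : ℂ) {t : ℝ} (ht : 0 < t) : HasDerivAt (fun x => kc x t) (ks x t) x := by
  have hs := (Real.sinh_pos_iff.2 ht).ne'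
  have h1 := ((cosh_deriv x t).sub_const 1).div_const ((t * Real.sinh t : ℝ) : ℂ)
  refine h1.congr_deriv ?_
  unfold ks
  have h2 : (t : ℂ) ≠ 0 := by exact_mod_cast ht.ne'
  have h3 : ((Real.sinh t : ℝ) : ℂ) ≠ 0 := by exact_mod_cast hs
  push_cast
  rw [Complex.ofReal_sinh] at h3
  field_simp

lemma ke_deriv (M : ℝ) (x : ℂ) {t : ℝ} (ht : 0 < t) :
    HasDerivAt (fun x => ke M x t) (ke' M x t) x := by
  have hs := (Real.sinh_pos_iff.2 ht).ne'
  have h1 := (sinh_deriv x t).mul_const ((gm M t / (t * Real.sinh t) : ℝ) : ℂ)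
  refine h1.congr_deriv ?_
  unfold ke'
  have h2 : (t : ℂ) ≠ 0 := by exact_mod_cast ht.ne'
  have h3 : ((Real.sinh t : ℝ) : ℂ) ≠ 0 := by exact_mod_cast hs
  push_cast
  rw [Complex.ofReal_sinh] at h3
  field_simp

lemma sinh_ofReal_cont : Continuous (fun t : ℝ => ((Real.sinh t : ℝ) : ℂ)) :=
  Complex.continuous_ofReal.comp Real.continuous_sinh

lemma csinh_cont (x : ℂ) : Continuous (fun t : ℝ => Complex.sinh (x * (t : ℂ))) :=
  Complex.continuous_sinh.comp (continuous_const.mul Complex.continuous_ofReal)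

lemma ccosh_cont (x : ℂ) : Continuous (fun t : ℝ => Complex.cosh (x * (t : ℂ))) :=
  Complex.continuous_cosh.comp (continuous_const.mul Complex.continuous_ofReal)

lemma ks_meas (x : ℂ) : AEStronglyMeasurable (ks x) (volume.restrict (Ioi 0)) := by
  apply ContinuousOn.aestronglyMeasurable _ measurableSet_Ioi
  unfold ks
  apply ContinuousOn.div (csinh_cont x).continuousOn sinh_ofReal_cont.continuousOn
  intro t ht
  rw [mem_Ioi] at ht
  exact_mod_cast (Real.sinh_pos_iff.2 ht).ne'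

lemma kc_meas (x : ℂ) : AEStronglyMeasurable (kc x) (volume.restrict (Ioi 0)) := by
  apply ContinuousOn.aestronglyMeasurable _ measurableSet_Ioi
  unfold kc
  apply ContinuousOn.div
  · exact ((ccosh_cont x).sub continuous_const).continuousOn
  · exact (Complex.continuous_ofReal.comp (continuous_id.mul Real.continuous_sinh)).continuousOn
  intro t ht
  rw [mem_Ioi] at ht
  exact_mod_cast (mul_pos ht (Real.sinh_pos_iff.2 ht)).ne'

lemma kl_meas (x : ℂ) : AEStronglyMeasurable (kl x) (volume.restrict (Ioi 0)) := by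
  apply ContinuousOn.aestronglyMeasurable _ measurableSet_Ioi
  unfold kl
  apply ContinuousOn.div
  · exact ((csinh_cont x).sub (continuous_const.mul Complex.continuous_ofReal)).continuousOn
  · exact (Complex.continuous_ofReal.comp ((continuous_pow 2).mul Real.continuous_sinh)).continuousOn
  intro t ht
  rw [mem_Ioi] at ht
  have := mul_pos (pow_pos ht 2) (Real.sinh_pos_iff.2 ht)
  exact_mod_cast this.ne'

lemma gm_contOn {M : ℝ} (hM : 0 < M) : ContinuousOn (gm M) (Ioi 0) := by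
  unfold gm
  apply ContinuousOn.sub
  · apply ContinuousOn.div continuousOn_const
    · exact (Real.continuous_sinh.comp (continuous_id.div_const M)).continuousOn
    · intro t ht
      exact (Real.sinh_pos_iff.2 (div_pos ht hM)).ne'
  · apply ContinuousOn.div continuousOn_const (continuous_id.div_const M).continuousOn
    intro t ht
    exact (div_pos ht hM).ne'

lemma ke_meas {M : ℝ} (hM : 0 < M) (x : ℂ) :
    AEStronglyMeasurable (ke M x) (volume.restrict (Ioi 0)) := by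
  apply ContinuousOn.aestronglyMeasurable _ measurableSet_Ioi
  unfold ke
  apply ContinuousOn.mul (csinh_cont x).continuousOn
  apply Complex.continuous_ofReal.comp_continuousOn
  apply ContinuousOn.div (gm_contOn hM) (continuous_id.mul Real.continuous_sinh).continuousOn
  intro t ht
  rw [mem_Ioi] at ht
  exact (mul_pos ht (Real.sinh_pos_iff.2 ht)).ne'

lemma ke'_meas {M : ℝ} (hM : 0 < M) (x : ℂ) :
    AEStronglyMeasurable (ke' M x) (volume.restrict (Ioi 0)) := by
  apply ContinuousOn.aestronglyMeasurable _ measurableSet_Ioi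
  unfold ke'
  apply ContinuousOn.mul (ccosh_cont x).continuousOn
  apply Complex.continuous_ofReal.comp_continuousOn
  apply ContinuousOn.div (gm_contOn hM) Real.continuous_sinh.continuousOn
  intro t ht
  rw [mem_Ioi] at ht
  exact (Real.sinh_pos_iff.2 ht).ne'

lemma ae_Ioi {p : ℝ → Prop} (h : ∀ t, 0 < t → p t) : ∀ᵐ t ∂(volume.restrict (Ioi (0 : ℝ))), p t := by
  rw [ae_restrict_iff' measurableSet_Ioi]
  exact Eventually.of_forall h

lemma int_of_bound {f : ℝ → ℂ} (hf : AEStronglyMeasurable f (volume.restrict (Ioi 0)))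
    {ε B c : ℝ} (hε : 0 < ε) (hb : ∀ t, 0 < t → ‖f t‖ ≤ c * bd ε B t) :
    Integrable f (volume.restrict (Ioi 0)) :=
  ((bd_int (B := B) hε).const_mul c).mono' hf (ae_Ioi hb)

/-- the neighbourhood used for domination -/
lemma nbhd {x : ℂ} (hx : x ∈ Strip) : ∃ ε > 0, |x.re| ≤ 1 - ε ∧ 
    {y : ℂ | |y.re| < 1 - ε ∧ ‖y‖ < ‖x‖ + 1} ∈ 𝓝 x := by
  have h : |x.re| < 1 := hx
  refine ⟨(1 - |x.re|) / 2, by linarith, by linarith, ?_⟩
  apply IsOpen.mem_nhds
  · exact (isOpen_lt (continuous_abs.comp Complex.continuous_re) continuous_const).inter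
      (isOpen_lt continuous_norm continuous_const)
  · exact ⟨by linarith, by linarith⟩

lemma ks_int {x : ℂ} (hx : x ∈ Strip) : Integrable (ks x) (volume.restrict (Ioi 0)) := by
  obtain ⟨ε, hε, h1, -⟩ := nbhd hx
  exact int_of_bound (ks_meas x) (B := ‖x‖) (c := 1) hε fun t ht => by
    rw [one_mul]; exact ks_bound hε h1 le_rfl ht

lemma kc_int {x : ℂ} (hx : x ∈ Strip) : Integrable (kc x) (volume.restrict (Ioi 0)) := by
  obtain ⟨ε, hε, h1, -⟩ := nbhd hx
  exact int_of_bound (kc_meas x) (B := ‖x‖) (c := 1) hε fun t ht => by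
    rw [one_mul]; exact kc_bound hε h1 le_rfl ht

lemma kl_int {x : ℂ} (hx : x ∈ Strip) : Integrable (kl x) (volume.restrict (Ioi 0)) := by
  obtain ⟨ε, hε, h1, -⟩ := nbhd hx
  exact int_of_bound (kl_meas x) (B := ‖x‖) (c := 1) hε fun t ht => by
    rw [one_mul]; exact kl_bound hε h1 le_rfl ht

lemma ke_int {M : ℝ} (hM : 0 < M) {x : ℂ} (hx : x ∈ Strip) :
    Integrable (ke M x) (volume.restrict (Ioi 0)) := by
  obtain ⟨ε, hε, h1, -⟩ := nbhd hx
  exact int_of_bound (ke_meas hM x) (B := ‖x‖) (c := 1 / (2 * M)) hε fun t ht => by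
    refine (ke_bound hM hε h1 le_rfl ht).trans (le_of_eq ?_)
    ring

theorem LL_deriv {x : ℂ} (hx : x ∈ Strip) : HasDerivAt LL (CL x) x := by
  obtain ⟨ε, hε, h1, h2⟩ := nbhd hx
  exact (hasDerivAt_integral_of_dominated_loc_of_deriv_le (F := kl) (F' := kc)
    (bound := bd ε (‖x‖ + 1)) h2 (Eventually.of_forall kl_meas) (kl_int hx) (kc_meas x)
    (ae_Ioi fun t ht y hy => kc_bound hε hy.1.le hy.2.le ht) (bd_int hε)
    (ae_Ioi fun t ht y _ => kl_deriv y ht)).2

theorem CL_deriv {x : ℂ} (hx : x ∈ Strip) : HasDerivAt CL (SL x) x := by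
  obtain ⟨ε, hε, h1, h2⟩ := nbhd hx
  exact (hasDerivAt_integral_of_dominated_loc_of_deriv_le (F := kc) (F' := ks)
    (bound := bd ε (‖x‖ + 1)) h2 (Eventually.of_forall kc_meas) (kc_int hx) (ks_meas x)
    (ae_Ioi fun t ht y hy => ks_bound hε hy.1.le hy.2.le ht) (bd_int hε)
    (ae_Ioi fun t ht y _ => kc_deriv y ht)).2

theorem EM_deriv {M : ℝ} (hM : 0 < M) {x : ℂ} (hx : x ∈ Strip) :
    HasDerivAt (EM M) (∫ t in Ioi (0 : ℝ), ke' M x t) x := by
  obtain ⟨ε, hε, h1, h2⟩ := nbhd hx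
  refine (hasDerivAt_integral_of_dominated_loc_of_deriv_le (F := ke M) (F' := ke' M)
    (bound := fun t => (1 + 1 / ε) * bd (ε / 2) (‖x‖ + 1) t / M) h2
    (Eventually.of_forall (ke_meas hM)) (ke_int hM hx) (ke'_meas hM x)
    (ae_Ioi fun t ht y hy => ke'_bound hM hε hy.1.le hy.2.le ht) ?_
    (ae_Ioi fun t ht y _ => ke_deriv M y ht)).2
  exact ((bd_int (B := ‖x‖ + 1) (half_pos hε)).const_mul (1 + 1 / ε)).div_const M

theorem EM_bound {ε B : ℝ} (hε : 0 < ε) : ∃ C, ∀ M > 0, ∀ x : ℂ, |x.re| ≤ 1 - ε → ‖x‖ ≤ B →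
    ‖EM M x‖ ≤ C / M := by
  refine ⟨(∫ t in Ioi (0 : ℝ), bd ε B t) / 2, fun M hM x hx hxB => ?_⟩
  unfold EM
  have h1 : ‖∫ t in Ioi (0 : ℝ), ke M x t‖ ≤ ∫ t in Ioi (0 : ℝ), bd ε B t / (2 * M) :=
    norm_integral_le_of_norm_le ((bd_int (B := B) hε).div_const (2 * M))
      (ae_Ioi fun t ht => ke_bound hM hε hx hxB ht)
  rw [integral_div] at h1
  refine h1.trans (le_of_eq ?_)
  field_simp

/-- no bound on the imaginary part needed -/
lemma ks_bound' {ε : ℝ} (hε : 0 < ε) {x : ℂ} (hx : |x.re| ≤ 1 - ε) {t : ℝ} (ht : 1 ≤ t) :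
    ‖ks x t‖ ≤ 4 * Real.exp (-ε * t) := by
  have ht0 : 0 < t := by linarith
  have hs := Real.sinh_pos_iff.2 ht0
  unfold ks
  rw [norm_div, Complex.norm_real, Real.norm_of_nonneg hs.le, div_le_iff₀ hs]
  have h2 := (norm_sinh_le (x * t)).trans (re_bound hx ht0)
  have h3 := exp_le_sinh ht
  calc ‖Complex.sinh (x * t)‖ ≤ Real.exp ((1 - ε) * t) := h2
    _ = 4 * Real.exp (-ε * t) * (Real.exp t / 4) := by
        rw [show (1 - ε) * t = -ε * t + t by ring, Real.exp_add]; ring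
    _ ≤ 4 * Real.exp (-ε * t) * Real.sinh t := mul_le_mul_of_nonneg_left h3 (by positivity)

end Pool.Agent.Helper48.QD
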