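import Pool.Agent.Helper48.QD.Basic

/-!
# The kernels and the integrals
-/

namespace Pool.Agent.Helper48.QD

open MeasureTheory Set Filter Topology

noncomputable def ks (x : ℂ) (t : ℝ) : ℂ := Complex.sinh (x * t) / (Real.sinh t : ℝ)

noncomputable def kc (x : ℂ) (t : ℝ) : ℂ := (Complex.cosh (x * t) - 1) / ((t * Real.sinh t : ℝ) : ℂ)

noncomputable def kl (x : ℂ) (t : ℝ) : ℂ :=
  (Complex.sinh (x * t) - x * t) / ((t ^ 2 * Real.sinh t : ℝ) : ℂ)

/-- `1 / sinh (t / M) - M / t` -/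
noncomputable def gm (M t : ℝ) : ℝ := 1 / Real.sinh (t / M) - 1 / (t / M)

noncomputable def ke (M : ℝ) (x : ℂ) (t : ℝ) : ℂ :=
  Complex.sinh (x * t) * ((gm M t / (t * Real.sinh t) : ℝ) : ℂ)

noncomputable def ke' (M : ℝ) (x : ℂ) (t : ℝ) : ℂ :=
  Complex.cosh (x * t) * ((gm M t / Real.sinh t : ℝ) : ℂ)

lemma norm_sinh_le' (w : ℂ) : ‖Complex.sinh w‖ ≤ ‖w‖ * Real.exp ‖w‖ := by
  have h1 := Complex.norm_exp_sub_sum_le_norm_mul_exp w 1
  have h2 := Complex.norm_exp_sub_sum_le_norm_mul_exp (-w) 1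
  rw [norm_neg] at h2
  simp only [Finset.sum_range_succ, Finset.sum_range_zero] at h1 h2
  have e : Complex.sinh w = ((Complex.exp w - (0 + w ^ 0 / (Nat.factorial 0 : ℂ))) -
      (Complex.exp (-w) - (0 + (-w) ^ 0 / (Nat.factorial 0 : ℂ)))) / 2 := by
    rw [Complex.sinh]
    simp
  rw [e, norm_div, RCLike.norm_ofNat]
  have h3 := norm_sub_le (Complex.exp w - (0 + w ^ 0 / (Nat.factorial 0 : ℂ)))
    (Complex.exp (-w) - (0 + (-w) ^ 0 / (Nat.factorial 0 : ℂ)))
  rw [pow_one] at h1 h2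
  linarith only [h3, h2, h1]

lemma norm_sinh_sub_le (w : ℂ) : ‖Complex.sinh w - w‖ ≤ ‖w‖ ^ 3 * Real.exp ‖w‖ := by
  have h1 := Complex.norm_exp_sub_sum_le_norm_mul_exp w 3
  have h2 := Complex.norm_exp_sub_sum_le_norm_mul_exp (-w) 3
  rw [norm_neg] at h2
  simp only [Finset.sum_range_succ, Finset.sum_range_zero] at h1 h2
  set A := Complex.exp w - (0 + w ^ 0 / (Nat.factorial 0 : ℂ) + w ^ 1 / (Nat.factorial 1 : ℂ) +
    w ^ 2 / (Nat.factorial 2 : ℂ)) with hA
  set B := Complex.exp (-w) - (0 + (-w) ^ 0 / (Nat.factorial 0 : ℂ) +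
    (-w) ^ 1 / (Nat.factorial 1 : ℂ) + (-w) ^ 2 / (Nat.factorial 2 : ℂ)) with hB
  have e : Complex.sinh w - w = (A - B) / 2 := by
    rw [Complex.sinh, hA, hB]
    simp
    ring
  rw [e, norm_div, RCLike.norm_ofNat]
  have h3 := norm_sub_le A B
  linarith only [h3, h2, h1]

/-- common bound of the kernels -/
noncomputable def bd (ε B t : ℝ) : ℝ :=
  (8 * (1 + B) + (1 + B) ^ 3 * Real.exp B * Real.exp ε) * Real.exp (-ε * t)

lemma bd_int {ε B : ℝ} (hε : 0 < ε) : Integrable (bd ε B) (volume.restrict (Ioi 0)) := by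
  unfold bd
  exact (integrableOn_exp_mul_Ioi (by linarith : -ε < 0) 0).const_mul _

lemma cosh_le_exp {s t : ℝ} (hs : 0 ≤ t) (h : |s| ≤ t) : Real.cosh s ≤ Real.exp t := by
  have h1 : Real.cosh s ≤ Real.cosh t := by
    rw [Real.cosh_le_cosh, abs_of_nonneg hs]
    exact h
  have h2 : Real.cosh t ≤ Real.exp t := by
    rw [Real.cosh_eq]
    have : Real.exp (-t) ≤ Real.exp t := Real.exp_le_exp.2 (by linarith)
    linarith only [this]
  linarith

lemma re_bound {ε : ℝ} {x : ℂ} (hx : |x.re| ≤ 1 - ε) {t : ℝ} (ht : 0 < t) :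
    Real.cosh (x * t).re ≤ Real.exp ((1 - ε) * t) := by
  apply cosh_le_exp
  · exact mul_nonneg ((abs_nonneg _).trans hx) ht.le
  · rw [Complex.re_mul_ofReal, abs_mul, abs_of_pos ht]
    exact mul_le_mul_of_nonneg_right hx ht.le

lemma exp_small {ε B t : ℝ} (hB : 0 ≤ B) (hε : 0 < ε) (t1 : t ≤ 1) {a : ℝ} (ha : 0 ≤ a)
    (ha' : a ≤ (1 + B) ^ 3 * Real.exp B) : a ≤ bd ε B t := by
  unfold bd
  have h1 : 1 ≤ Real.exp ε * Real.exp (-ε * t) := by
    rw [← Real.exp_add]
    apply Real.one_le_exp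
    nlinarith only [t1, hε]
  have h2 : 0 ≤ 8 * (1 + B) * Real.exp (-ε * t) := by positivity
  calc a ≤ (1 + B) ^ 3 * Real.exp B := ha'
    _ ≤ (1 + B) ^ 3 * Real.exp B * (Real.exp ε * Real.exp (-ε * t)) :=
        le_mul_of_one_le_right (by positivity) h1
    _ ≤ _ := by nlinarith only [h2]

lemma exp_large {ε B t : ℝ} (hB : 0 ≤ B) {a : ℝ}
    (ha' : a ≤ 8 * (1 + B) * Real.exp (-ε * t)) : a ≤ bd ε B t := by
  unfold bd
  have h2 : 0 ≤ (1 + B) ^ 3 * Real.exp B * Real.exp ε * Real.exp (-ε * t) := by positivity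
  linarith

lemma xt_norm {B : ℝ} {x : ℂ} (hxB : ‖x‖ ≤ B) {t : ℝ} (ht : 0 < t) : ‖x * (t : ℂ)‖ ≤ B * t := by
  rw [norm_mul, Complex.norm_real, Real.norm_of_nonneg ht.le]
  exact mul_le_mul_of_nonneg_right hxB ht.le

lemma ks_bound {ε B : ℝ} (hε : 0 < ε) {x : ℂ} (hx : |x.re| ≤ 1 - ε) (hxB : ‖x‖ ≤ B)
    {t : ℝ} (ht : 0 < t) : ‖ks x t‖ ≤ bd ε B t := by
  have hB : 0 ≤ B := (norm_nonneg _).trans hxB
  have hs := Real.sinh_pos_iff.2 ht
  unfold ks
  rw [norm_div, Complex.norm_real, Real.norm_of_nonneg hs.le]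
  by_cases h1 : t ≤ 1
  · apply exp_small hB hε h1 (by positivity)
    rw [div_le_iff₀ hs]
    have h2 := xt_norm hxB ht
    have h3 : B * t ≤ B := by nlinarith only [h1, hB]
    calc ‖Complex.sinh (x * t)‖ ≤ ‖x * (t : ℂ)‖ * Real.exp ‖x * (t : ℂ)‖ := norm_sinh_le' _
      _ ≤ (B * t) * Real.exp B := mul_le_mul h2 (Real.exp_le_exp.2 (h2.trans h3))
          (Real.exp_pos _).le (by positivity)
      _ ≤ ((1 + B) ^ 3 * Real.sinh t) * Real.exp B := by
          apply mul_le_mul_of_nonneg_right _ (Real.exp_pos _).le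
          apply mul_le_mul _ (le_sinh ht.le) ht.le (by positivity)
          nlinarith only [sq_nonneg B, mul_nonneg hB (sq_nonneg B), hB]
      _ = _ := by ring
  · push Not at h1
    apply exp_large hB
    rw [div_le_iff₀ hs]
    have h2 := (norm_sinh_le (x * t)).trans (re_bound hx ht)
    have h3 := exp_le_sinh h1.le
    calc ‖Complex.sinh (x * t)‖ ≤ Real.exp ((1 - ε) * t) := h2
      _ = 4 * Real.exp (-ε * t) * (Real.exp t / 4) := by
          rw [show (1 - ε) * t = -ε * t + t by ring, Real.exp_add]; ring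
      _ ≤ 4 * Real.exp (-ε * t) * Real.sinh t := mul_le_mul_of_nonneg_left h3 (by positivity)
      _ ≤ 8 * (1 + B) * Real.exp (-ε * t) * Real.sinh t := by
          apply mul_le_mul_of_nonneg_right _ hs.le
          apply mul_le_mul_of_nonneg_right _ (Real.exp_pos _).le
          linarith only [hB]

lemma kc_bound {ε B : ℝ} (hε : 0 < ε) {x : ℂ} (hx : |x.re| ≤ 1 - ε) (hxB : ‖x‖ ≤ B)
    {t : ℝ} (ht : 0 < t) : ‖kc x t‖ ≤ bd ε B t := by
  have hB : 0 ≤ B := (norm_nonneg _).trans hxB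
  have hs := Real.sinh_pos_iff.2 ht
  have hts : 0 < t * Real.sinh t := mul_pos ht hs
  unfold kc
  rw [norm_div, Complex.norm_real, Real.norm_of_nonneg hts.le]
  by_cases h1 : t ≤ 1
  · apply exp_small hB hε h1 (by positivity)
    rw [div_le_iff₀ hts]
    have h2 := xt_norm hxB ht
    have h3 : B * t ≤ B := by nlinarith only [h1, hB]
    calc ‖Complex.cosh (x * t) - 1‖ ≤ ‖x * (t : ℂ)‖ ^ 2 * Real.exp ‖x * (t : ℂ)‖ :=
          norm_cosh_sub_one_le _
      _ ≤ (B * t) ^ 2 * Real.exp B := mul_le_mul (pow_le_pow_left₀ (norm_nonneg _) h2 2)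
          (Real.exp_le_exp.2 (h2.trans h3)) (Real.exp_pos _).le (by positivity)
      _ = (B ^ 2 * (t * t)) * Real.exp B := by ring
      _ ≤ ((1 + B) ^ 3 * (t * Real.sinh t)) * Real.exp B := by
          apply mul_le_mul_of_nonneg_right _ (Real.exp_pos _).le
          apply mul_le_mul _ (mul_le_mul_of_nonneg_left (le_sinh ht.le) ht.le) (by positivity)
            (by positivity)
          nlinarith only [sq_nonneg B, mul_nonneg hB (sq_nonneg B), hB]
      _ = _ := by ring
  · push Not at h1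
    apply exp_large hB
    rw [div_le_iff₀ hts]
    have h2 := (norm_cosh_le (x * t)).trans (re_bound hx ht)
    have h3 := exp_le_sinh h1.le
    have h4 : 1 ≤ Real.exp ((1 - ε) * t) :=
      Real.one_le_exp (mul_nonneg ((abs_nonneg _).trans hx) ht.le)
    calc ‖Complex.cosh (x * t) - 1‖ ≤ ‖Complex.cosh (x * t)‖ + ‖(1 : ℂ)‖ := norm_sub_le _ _
      _ ≤ 2 * Real.exp ((1 - ε) * t) := by rw [norm_one]; linarith
      _ = 8 * Real.exp (-ε * t) * (Real.exp t / 4) := by
          rw [show (1 - ε) * t = -ε * t + t by ring, Real.exp_add]; ring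
      _ ≤ 8 * Real.exp (-ε * t) * Real.sinh t := mul_le_mul_of_nonneg_left h3 (by positivity)
      _ ≤ 8 * (1 + B) * Real.exp (-ε * t) * (t * Real.sinh t) := by
          apply mul_le_mul _ _ hs.le (by positivity)
          · apply mul_le_mul_of_nonneg_right _ (Real.exp_pos _).le
            linarith
          · exact le_mul_of_one_le_left hs.le h1.le

lemma kl_bound {ε B : ℝ} (hε : 0 < ε) {x : ℂ} (hx : |x.re| ≤ 1 - ε) (hxB : ‖x‖ ≤ B)
    {t : ℝ} (ht : 0 < t) : ‖kl x t‖ ≤ bd ε B t := by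
  have hB : 0 ≤ B := (norm_nonneg _).trans hxB
  have hs := Real.sinh_pos_iff.2 ht
  have hts : 0 < t ^ 2 * Real.sinh t := by positivity
  unfold kl
  rw [norm_div, Complex.norm_real, Real.norm_of_nonneg hts.le]
  by_cases h1 : t ≤ 1
  · apply exp_small hB hε h1 (by positivity)
    rw [div_le_iff₀ hts]
    have h2 := xt_norm hxB ht
    have h3 : B * t ≤ B := by nlinarith only [h1, hB]
    calc ‖Complex.sinh (x * t) - x * t‖ ≤ ‖x * (t : ℂ)‖ ^ 3 * Real.exp ‖x * (t : ℂ)‖ :=
          norm_sinh_sub_le _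
      _ ≤ (B * t) ^ 3 * Real.exp B := mul_le_mul (pow_le_pow_left₀ (norm_nonneg _) h2 3)
          (Real.exp_le_exp.2 (h2.trans h3)) (Real.exp_pos _).le (by positivity)
      _ = (B ^ 3 * (t ^ 2 * t)) * Real.exp B := by ring
      _ ≤ ((1 + B) ^ 3 * (t ^ 2 * Real.sinh t)) * Real.exp B := by
          apply mul_le_mul_of_nonneg_right _ (Real.exp_pos _).le
          apply mul_le_mul _ (mul_le_mul_of_nonneg_left (le_sinh ht.le) (by positivity))
            (by positivity) (by positivity)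
          exact pow_le_pow_left₀ hB (by linarith) 3
      _ = _ := by ring
  · push Not at h1
    apply exp_large hB
    rw [div_le_iff₀ hts]
    have h2 := (norm_sinh_le (x * t)).trans (re_bound hx ht)
    have h3 := exp_le_sinh h1.le
    have h4 : 1 ≤ Real.exp ((1 - ε) * t) :=
      Real.one_le_exp (mul_nonneg ((abs_nonneg _).trans hx) ht.le)
    have h5 := xt_norm hxB ht
    calc ‖Complex.sinh (x * t) - x * t‖ ≤ ‖Complex.sinh (x * t)‖ + ‖x * (t : ℂ)‖ := norm_sub_le _ _
      _ ≤ Real.exp ((1 - ε) * t) + B * t := by linarith only [h5, h2]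
      _ ≤ (1 + B) * Real.exp ((1 - ε) * t) * t := by
          have : B * t ≤ B * Real.exp ((1 - ε) * t) * t := by
            have := mul_le_mul_of_nonneg_left h4 (mul_nonneg hB ht.le)
            nlinarith only [this]
          have : Real.exp ((1 - ε) * t) ≤ Real.exp ((1 - ε) * t) * t :=
            le_mul_of_one_le_right (Real.exp_pos _).le h1.le
          nlinarith
      _ = 4 * (1 + B) * Real.exp (-ε * t) * (t * (Real.exp t / 4)) := by
          rw [show (1 - ε) * t = -ε * t + t by ring, Real.exp_add]; ring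
      _ ≤ 4 * (1 + B) * Real.exp (-ε * t) * (t ^ 2 * Real.sinh t) := by
          apply mul_le_mul_of_nonneg_left _ (by positivity)
          apply mul_le_mul _ h3 (by positivity) (by positivity)
          nlinarith only [h1, ht]
      _ ≤ 8 * (1 + B) * Real.exp (-ε * t) * (t ^ 2 * Real.sinh t) := by
          apply mul_le_mul_of_nonneg_right _ hts.le
          apply mul_le_mul_of_nonneg_right _ (Real.exp_pos _).le
          linarith

lemma gm_bound {M t : ℝ} (hM : 0 < M) (ht : 0 < t) : |gm M t| ≤ t / (2 * M) := by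
  unfold gm
  refine (inv_sinh_bound (div_pos ht hM)).trans (le_of_eq ?_)
  field_simp

lemma ke_bound {M ε B : ℝ} (hM : 0 < M) (hε : 0 < ε) {x : ℂ} (hx : |x.re| ≤ 1 - ε) (hxB : ‖x‖ ≤ B)
    {t : ℝ} (ht : 0 < t) : ‖ke M x t‖ ≤ bd ε B t / (2 * M) := by
  have h1 := ks_bound hε hx hxB ht
  have hs := Real.sinh_pos_iff.2 ht
  have h2 := gm_bound hM ht
  unfold ks at h1
  rw [norm_div, Complex.norm_real, Real.norm_of_nonneg hs.le] at h1
  unfold ke
  rw [norm_mul, Complex.norm_real, Real.norm_eq_abs, abs_div, abs_of_pos (mul_pos ht hs)]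
  calc ‖Complex.sinh (x * t)‖ * (|gm M t| / (t * Real.sinh t)) ≤
      ‖Complex.sinh (x * t)‖ * (t / (2 * M) / (t * Real.sinh t)) := by gcongr
    _ = (‖Complex.sinh (x * t)‖ / Real.sinh t) / (2 * M) := by field_simp
    _ ≤ _ := by gcongr

lemma ke'_bound {M ε B : ℝ} (hM : 0 < M) (hε : 0 < ε) {x : ℂ} (hx : |x.re| ≤ 1 - ε)
    (hxB : ‖x‖ ≤ B) {t : ℝ} (ht : 0 < t) :
    ‖ke' M x t‖ ≤ (1 + 1 / ε) * bd (ε / 2) B t / M := by
  have hB : 0 ≤ B := (norm_nonneg _).trans hxB
  have hs := Real.sinh_pos_iff.2 ht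
  have h2 := gm_bound hM ht
  have hbd : 0 ≤ bd (ε / 2) B t := by unfold bd; positivity
  have key : ‖Complex.cosh (x * t)‖ * t / Real.sinh t ≤ 2 * (1 + 1 / ε) * bd (ε / 2) B t := by
    by_cases h1 : t ≤ 1
    · have h3 : ‖Complex.cosh (x * t)‖ * t / Real.sinh t ≤ bd (ε / 2) B t := by
        apply exp_small hB (by positivity) h1 (by positivity)
        rw [div_le_iff₀ hs]
        have h4 : ‖Complex.cosh (x * t)‖ ≤ Real.exp B := by
          refine (norm_cosh_le _).trans (cosh_le_exp hB ?_)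
          refine (Complex.abs_re_le_norm _).trans ((xt_norm hxB ht).trans ?_)
          nlinarith only [h1, hB]
        calc ‖Complex.cosh (x * t)‖ * t ≤ Real.exp B * Real.sinh t :=
              mul_le_mul h4 (le_sinh ht.le) ht.le (Real.exp_pos _).le
          _ ≤ (1 + B) ^ 3 * (Real.exp B * Real.sinh t) := by
              apply le_mul_of_one_le_left (by positivity)
              nlinarith only [sq_nonneg B, mul_nonneg hB (sq_nonneg B), hB]
          _ = _ := by ring
      have : 0 < 1 / ε := by positivity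
      nlinarith only [this, h3, hbd]
    · push Not at h1
      have h3 : ‖Complex.cosh (x * t)‖ * t / Real.sinh t ≤
          (2 / ε) * (4 * Real.exp (-(ε / 2) * t)) := by
        rw [div_le_iff₀ hs]
        have h4 := (norm_cosh_le (x * t)).trans (re_bound hx ht)
        have h5 := exp_le_sinh h1.le
        have h6 : t ≤ (2 / ε) * Real.exp (ε / 2 * t) := by
          have := Real.add_one_le_exp (ε / 2 * t)
          calc t = (2 / ε) * (ε / 2 * t) := by field_simp
            _ ≤ _ := by gcongr; linarith only [this]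
        calc ‖Complex.cosh (x * t)‖ * t ≤ Real.exp ((1 - ε) * t) * ((2 / ε) * Real.exp (ε / 2 * t)) :=
              mul_le_mul h4 h6 ht.le (Real.exp_pos _).le
          _ = (2 / ε) * (4 * Real.exp (-(ε / 2) * t)) * (Real.exp t / 4) := by
              have : Real.exp ((1 - ε) * t) * Real.exp (ε / 2 * t) =
                  Real.exp (-(ε / 2) * t) * Real.exp t := by
                rw [← Real.exp_add, ← Real.exp_add]; ring_nf
              linear_combination (2 / ε) * this
          _ ≤ _ := mul_le_mul_of_nonneg_left h5 (by positivity)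
      have h7 : 8 * Real.exp (-(ε / 2) * t) ≤ bd (ε / 2) B t := by
        apply exp_large hB
        apply mul_le_mul_of_nonneg_right _ (Real.exp_pos _).le
        linarith
      have h8 : 0 < 1 / ε := by positivity
      calc _ ≤ (2 / ε) * (4 * Real.exp (-(ε / 2) * t)) := h3
        _ = (1 / ε) * (8 * Real.exp (-(ε / 2) * t)) := by ring
        _ ≤ (1 / ε) * bd (ε / 2) B t := by gcongr
        _ ≤ _ := by nlinarith only [h8, hbd]
  unfold ke'
  rw [norm_mul, Complex.norm_real, Real.norm_eq_abs, abs_div, abs_of_pos hs]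
  calc ‖Complex.cosh (x * t)‖ * (|gm M t| / Real.sinh t) ≤
      ‖Complex.cosh (x * t)‖ * (t / (2 * M) / Real.sinh t) := by gcongr
    _ = (‖Complex.cosh (x * t)‖ * t / Real.sinh t) / (2 * M) := by field_simp
    _ ≤ (2 * (1 + 1 / ε) * bd (ε / 2) B t) / (2 * M) := by gcongr
    _ = _ := by field_simp

end Pool.Agent.Helper48.QD
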